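import Pool.Agent.W819.NC.Stm

/-!
Project NC, part TOUT: weighted laws and inner variables.
-/

set_option autoImplicit false

namespace Pool.Agent.W790.NC

open H974 Finset Pool.Agent.W819.EN Pool.Agent.W819.NC

lemma bx_mono (v : Vtx) {k l : ℤ} (h : k ≤ l) : bx v k ⊆ bx v l := by
  unfold bx
  exact RE_subset (by omega) (by omega) (by omega) (by omega)

lemma loc' {N : NT} (hG : Geo N) {v : Vtx} {r R : ℕ} (h : r ≤ R)
    {S : Finset Edg} (hS : an v r R ⊆ S) (F : Finset Edg) : N F v r R = N (F ∩ S) v r R := by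
  rw [hG.loc F v r R h, hG.loc (F ∩ S) v r R h]
  congr 1
  ext x
  simp only [Finset.mem_inter]
  constructor
  · rintro ⟨h1, h2⟩
    exact ⟨⟨h1, hS h2⟩, h2⟩
  · rintro ⟨⟨h1, -⟩, h2⟩
    exact ⟨h1, h2⟩

/-- the weighted inequality of Cauchy and Schwarz -/
lemma cs {E : Type*} [DecidableEq E] {p : E → ℝ} (hp : Ok p) {S : Finset E}
    {U f g : Finset E → ℝ} (hU : ∀ F, F ⊆ S → 0 ≤ U F) :
    Ex p S (fun F => U F * f F * g F) ≤
      Real.sqrt (Ex p S (fun F => U F * f F ^ 2)) * Real.sqrt (Ex p S (fun F => U F * g F ^ 2)) := by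
  have hpos : 0 ≤ Ex p S (fun F => U F * f F ^ 2) :=
    Ex_nonneg hp fun F hF => mul_nonneg (hU F hF) (sq_nonneg _)
  rw [← Real.sqrt_mul hpos]
  refine (le_abs_self _).trans (Real.abs_le_sqrt ?_)
  unfold Ex
  have hw : ∀ F ∈ S.powerset, 0 ≤ (∏ e ∈ F, p e) * (∏ e ∈ S \ F, (1 - p e)) * U F := by
    intro F hF
    refine mul_nonneg (mul_nonneg ?_ ?_) (hU F (Finset.mem_powerset.mp hF))
    · exact Finset.prod_nonneg (fun e _ => (hp e).1)
    · exact Finset.prod_nonneg (fun e _ => by linarith [(hp e).2])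
  have h := Finset.sum_mul_sq_le_sq_mul_sq S.powerset
    (fun F => Real.sqrt ((∏ e ∈ F, p e) * (∏ e ∈ S \ F, (1 - p e)) * U F) * f F)
    (fun F => Real.sqrt ((∏ e ∈ F, p e) * (∏ e ∈ S \ F, (1 - p e)) * U F) * g F)
  have e1 : ∀ F ∈ S.powerset,
      Real.sqrt ((∏ e ∈ F, p e) * (∏ e ∈ S \ F, (1 - p e)) * U F) * f F *
        (Real.sqrt ((∏ e ∈ F, p e) * (∏ e ∈ S \ F, (1 - p e)) * U F) * g F) =
      (∏ e ∈ F, p e) * (∏ e ∈ S \ F, (1 - p e)) * (U F * f F * g F) := by
    intro F hF
    have := Real.mul_self_sqrt (hw F hF)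
    linear_combination f F * g F * this
  have e2 : ∀ (k : Finset E → ℝ), ∀ F ∈ S.powerset,
      (Real.sqrt ((∏ e ∈ F, p e) * (∏ e ∈ S \ F, (1 - p e)) * U F) * k F) ^ 2 =
      (∏ e ∈ F, p e) * (∏ e ∈ S \ F, (1 - p e)) * (U F * k F ^ 2) := by
    intro k F hF
    have := Real.mul_self_sqrt (hw F hF)
    linear_combination k F ^ 2 * this
  rw [Finset.sum_congr rfl e1, Finset.sum_congr rfl (e2 f), Finset.sum_congr rfl (e2 g)] at h
  exact h

lemma cs1 {E : Type*} [DecidableEq E] {p : E → ℝ} (hp : Ok p) {S : Finset E}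
    {f g : Finset E → ℝ} :
    Ex p S (fun F => f F * g F) ≤
      Real.sqrt (Ex p S (fun F => f F ^ 2)) * Real.sqrt (Ex p S (fun F => g F ^ 2)) := by
  have h := cs hp (S := S) (U := fun _ => 1) (f := f) (g := g) (fun _ _ => zero_le_one)
  simpa using h

lemma ex_le_sqrt {E : Type*} [DecidableEq E] {p : E → ℝ} (hp : Ok p) {S : Finset E}
    {f : Finset E → ℝ} :
    Ex p S f ≤ Real.sqrt (Ex p S (fun F => f F ^ 2)) := by
  have h := cs1 hp (S := S) (f := fun _ => 1) (g := f)
  simpa [Ex_const] using h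

theorem t_TOUT {N : NT} {W : WT} {K : KT} (h : Sys N W K) (hl : LocG N) (ha : AMom N)
    (ho : OutB N W) (hd : DOut N) : TOut N := by
  intro t M ht
  have hok : Ok P2 := okq (q := (1 / 2 : ℝ)) (by norm_num) (by norm_num)
  rcases le_total 1 t with h1 | h1
  · obtain ⟨A0, hA0, hA0'⟩ := ho t (t ^ 2) (M + 1) h1 (one_le_pow₀ h1)
    obtain ⟨C, hC, hC'⟩ := ha (t ^ 2) (one_le_pow₀ h1) (2 * (M + 1))
    refine ⟨Real.sqrt A0 + Real.sqrt C, by positivity, ?_⟩
    intro v r R c S T Y hr hrR hc hS hTS hT hY hYT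
    set Z := Real.sqrt (Ex P2 S (fun F => Y F ^ 2)) with hZ
    have hZ0 : 0 ≤ Z := Real.sqrt_nonneg _
    have hG1 : 1 ≤ G N t r R := by
      have := Ex_mono hok (S := bx (0, 0) R) (f := fun _ => (1 : ℝ))
        (g := fun F => t ^ N F (0, 0) r R) (fun F _ => one_le_pow₀ h1)
      rwa [Ex_const] at this
    have hG0 : 0 ≤ G N t r R := by linarith
    rcases le_or_gt (2 * ((M + 1) * r)) R with hR | hR
    · obtain ⟨x, hx⟩ : ∃ x : ℕ, x = (M + 1) * r := ⟨_, rfl⟩
      have hrx : r ≤ x := by rw [hx]; nlinarith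
      have hcx : c + 1 ≤ x := by rw [hx]; nlinarith
      rw [← hx] at hR
      have hxR : x ≤ R := by omega
      have hTx : T ⊆ bx v ((x : ℤ) - 1) := hT.trans (bx_mono v (by omega))
      have hdis : Disjoint (an v x R) T := by
        rw [Finset.disjoint_right]
        intro e he he'
        unfold an at he'
        rw [Finset.mem_sdiff] at he'
        exact he'.2 (hTx he)
      have hX : ∀ F : Finset Edg, t ^ N F v x R = t ^ N (F ∩ an v x R) v x R := fun F => by
        rw [← loc' h.geo hxR (Finset.Subset.refl _) F]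
      have s1 : Ex P2 S (fun F => t ^ N F v r R * Y F) ≤
          Ex P2 S (fun F => t ^ N F v x R * t ^ (N F v r (2 * x) + W F v x) * Y F) := by
        refine Ex_mono hok fun F _ => mul_le_mul_of_nonneg_right ?_ (hY F)
        rw [← pow_add]
        refine pow_le_pow_right₀ h1 ?_
        have := h.join F v x r R (by omega) hrx hR
        omega
      have s2 := cs hok (S := S) (U := fun F => t ^ N F v x R)
        (f := fun F => t ^ (N F v r (2 * x) + W F v x)) (g := Y) (fun F _ => by positivity)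
      have s3 : Ex P2 S (fun F => t ^ N F v x R * (t ^ (N F v r (2 * x) + W F v x)) ^ 2) ≤
          A0 * G N t x R := by
        have := hA0' v r x R S hr hrx (by rw [hx]) hR hS
        refine le_trans (le_of_eq ?_) this
        refine Ex_congr fun F _ => ?_
        rw [pow_right_comm t _ 2]
      have s4 : Ex P2 S (fun F => t ^ N F v x R * Y F ^ 2) =
          G N t x R * Ex P2 S (fun F => Y F ^ 2) := by
        rw [Ex_mul_indep (p := P2) (sdiff_subset.trans hS) hTS hdis (fun F _ => hX F)
          (fun F hF => by rw [← hYT F hF]), hl t v x R S hxR hS]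
      have hGx0 : 0 ≤ G N t x R := Ex_nonneg hok fun F _ => by positivity
      have s5 : G N t x R ≤ G N t r R :=
        Ex_mono hok fun F _ => pow_le_pow_right₀ h1 (h.geo.mono F (0, 0) x r R R hrx le_rfl)
      rw [s4] at s2
      calc Ex P2 S (fun F => t ^ N F v r R * Y F)
          ≤ Real.sqrt (A0 * G N t x R) * Real.sqrt (G N t x R * Ex P2 S (fun F => Y F ^ 2)) :=
            s1.trans (s2.trans (mul_le_mul_of_nonneg_right (Real.sqrt_le_sqrt s3)
              (Real.sqrt_nonneg _)))
        _ = Real.sqrt A0 * G N t x R * Z := by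
            rw [Real.sqrt_mul hA0.le, Real.sqrt_mul hGx0, hZ]
            have := Real.mul_self_sqrt hGx0
            linear_combination Real.sqrt A0 * Real.sqrt (Ex P2 S (fun F => Y F ^ 2)) * this
        _ ≤ (Real.sqrt A0 + Real.sqrt C) * G N t r R * Z := by
            refine mul_le_mul_of_nonneg_right ?_ hZ0
            refine mul_le_mul ?_ s5 hGx0 (by positivity)
            linarith [Real.sqrt_nonneg C]
    · have s1 := cs1 hok (S := S) (f := fun F => t ^ N F v r R) (g := Y)
      have s2 : Ex P2 S (fun F => (t ^ N F v r R) ^ 2) ≤ C := by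
        refine le_trans (le_of_eq ?_) (hC' v r R S hr hrR (by rw [mul_assoc]; omega) hS)
        refine Ex_congr fun F _ => ?_
        rw [pow_right_comm t _ 2]
      calc Ex P2 S (fun F => t ^ N F v r R * Y F) ≤ Real.sqrt C * Z :=
            s1.trans (mul_le_mul_of_nonneg_right (Real.sqrt_le_sqrt s2) hZ0)
        _ ≤ (Real.sqrt A0 + Real.sqrt C) * G N t r R * Z := by
            refine mul_le_mul_of_nonneg_right ?_ hZ0
            have e1 := Real.sqrt_nonneg A0
            have e2 := Real.sqrt_nonneg C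
            nlinarith
  · obtain ⟨A0, hA0, hA0'⟩ := hd t (M + 1) ht h1
    have h1' : 1 ≤ 1 / t := by rw [le_div_iff₀ ht]; linarith
    obtain ⟨C, hC, hC'⟩ := ha (1 / t) h1' (2 * (M + 1))
    refine ⟨A0 + C, by positivity, ?_⟩
    intro v r R c S T Y hr hrR hc hS hTS hT hY hYT
    set Z := Real.sqrt (Ex P2 S (fun F => Y F ^ 2)) with hZ
    have hZ0 : 0 ≤ Z := Real.sqrt_nonneg _
    have hYZ : Ex P2 S Y ≤ Z := ex_le_sqrt hok
    have hG0 : 0 ≤ G N t r R := Ex_nonneg hok fun F _ => by positivity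
    rcases le_or_gt (2 * ((M + 1) * r)) R with hR | hR
    · obtain ⟨x, hx⟩ : ∃ x : ℕ, x = (M + 1) * r := ⟨_, rfl⟩
      have hrx : r ≤ x := by rw [hx]; nlinarith
      have hcx : c + 1 ≤ x := by rw [hx]; nlinarith
      rw [← hx] at hR
      have hxR : x ≤ R := by omega
      have hTx : T ⊆ bx v ((x : ℤ) - 1) := hT.trans (bx_mono v (by omega))
      have hdis : Disjoint (an v x R) T := by
        rw [Finset.disjoint_right]
        intro e he he'
        unfold an at he'
        rw [Finset.mem_sdiff] at he'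
        exact he'.2 (hTx he)
      have hX : ∀ F : Finset Edg, t ^ N F v x R = t ^ N (F ∩ an v x R) v x R := fun F => by
        rw [← loc' h.geo hxR (Finset.Subset.refl _) F]
      have s1 : Ex P2 S (fun F => t ^ N F v r R * Y F) ≤
          Ex P2 S (fun F => t ^ N F v x R * Y F) := by
        refine Ex_mono hok fun F _ => mul_le_mul_of_nonneg_right ?_ (hY F)
        exact pow_le_pow_of_le_one ht.le h1 (h.geo.mono F v x r R R hrx le_rfl)
      have s4 : Ex P2 S (fun F => t ^ N F v x R * Y F) = G N t x R * Ex P2 S Y := by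
        rw [Ex_mul_indep (p := P2) (sdiff_subset.trans hS) hTS hdis (fun F _ => hX F)
          (fun F hF => hYT F hF), hl t v x R S hxR hS]
      have hGx0 : 0 ≤ G N t x R := Ex_nonneg hok fun F _ => by positivity
      have s5 := hA0' r x R hr hrx hxR (by rw [hx])
      have hEY : 0 ≤ Ex P2 S Y := Ex_nonneg hok fun F _ => hY F
      calc Ex P2 S (fun F => t ^ N F v r R * Y F) ≤ G N t x R * Ex P2 S Y := s1.trans s4.le
        _ ≤ (A0 * G N t r R) * Z := mul_le_mul s5 hYZ hEY (by positivity)
        _ ≤ (A0 + C) * G N t r R * Z := by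
            refine mul_le_mul_of_nonneg_right ?_ hZ0
            nlinarith
    · have s1 : Ex P2 S (fun F => t ^ N F v r R * Y F) ≤ Ex P2 S Y := by
        refine Ex_mono hok fun F _ => ?_
        exact mul_le_of_le_one_left (hY F) (pow_le_one₀ ht.le h1)
      have s2 : Ex P2 S (fun F => (1 / t) ^ N F v r R) ≤ C :=
        hC' v r R S hr hrR (by rw [mul_assoc]; omega) hS
      have s3 : 1 ≤ G N t r R * C := by
        have e := cs1 hok (S := S) (f := fun F => Real.sqrt (t ^ N F v r R))
          (g := fun F => Real.sqrt ((1 / t) ^ N F v r R))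
        have e1 : Ex P2 S (fun F => Real.sqrt (t ^ N F v r R) * Real.sqrt ((1 / t) ^ N F v r R)) =
            1 := by
          refine (Ex_congr (g := fun _ => (1 : ℝ)) fun F _ => ?_).trans (Ex_const _ _ _)
          rw [← Real.sqrt_mul (by positivity), ← mul_pow, mul_one_div_cancel ht.ne', one_pow,
            Real.sqrt_one]
        have e2 : Ex P2 S (fun F => Real.sqrt (t ^ N F v r R) ^ 2) = G N t r R := by
          rw [← hl t v r R S hrR hS]
          exact Ex_congr fun F _ => Real.sq_sqrt (by positivity)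
        have e3 : Ex P2 S (fun F => Real.sqrt ((1 / t) ^ N F v r R) ^ 2) ≤ C := by
          refine le_trans (le_of_eq ?_) s2
          exact Ex_congr fun F _ => Real.sq_sqrt (by positivity)
        rw [e1, e2, ← Real.sqrt_mul hG0] at e
        have e4 : (1 : ℝ) ≤ G N t r R * Ex P2 S (fun F => Real.sqrt ((1 / t) ^ N F v r R) ^ 2) := by
          by_contra hcon
          have := Real.sqrt_lt_sqrt (mul_nonneg hG0 (Ex_nonneg hok fun F _ => sq_nonneg _))
            (not_le.1 hcon)
          rw [Real.sqrt_one] at this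
          linarith
        exact e4.trans (mul_le_mul_of_nonneg_left e3 hG0)
      calc Ex P2 S (fun F => t ^ N F v r R * Y F) ≤ Z := s1.trans hYZ
        _ ≤ (G N t r R * C) * Z := le_mul_of_one_le_left hZ0 s3
        _ ≤ (A0 + C) * G N t r R * Z := by
            refine mul_le_mul_of_nonneg_right ?_ hZ0
            nlinarith

end Pool.Agent.W790.NC
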